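import Pool.Agent.helper65.GF.SpecG

/-!
# Row YNF: lower bound for the numbers `AH p m j`
-/

set_option autoImplicit false

namespace Pool.Agent.GD

open Finset Metric Filter Topology

theorem YNF_step (p m j : ℕ) (h2 : j ≤ p) (h3 : p < m) :
    AH p m j ≤ AH p (m + 1) j := by
  unfold AH
  obtain ⟨k, rfl⟩ : ∃ k, m = p + 1 + k := ⟨m - p - 1, by omega⟩
  have e1 : p + 1 + k - p - 1 = k := by omega
  have e2 : p + 1 + k + 1 - p - 1 = k + 1 := by omega
  have e3 : (p + 1 + k + 1 + p + 1).factorial =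
      (p + 1 + k + 1 + p + 1) * (p + 1 + k + p + 1).factorial := by
    rw [show p + 1 + k + 1 + p + 1 = (p + 1 + k + p + 1) + 1 by omega, Nat.factorial_succ]
  have e4 : (k + 1).factorial = (k + 1) * k.factorial := Nat.factorial_succ k
  rw [e1, e2, e3, e4]
  have hj : (0 : ℝ) ≤ (j : ℝ) := Nat.cast_nonneg j
  have hp : (j : ℝ) ≤ (p : ℝ) := by exact_mod_cast h2
  have hk : (0 : ℝ) ≤ (k : ℝ) := Nat.cast_nonneg k
  have hF : (0 : ℝ) < ((p + 1 + k + p + 1).factorial : ℝ) := by exact_mod_cast Nat.factorial_pos _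
  have ha : (0 : ℝ) < ((p - j).factorial : ℝ) := by exact_mod_cast Nat.factorial_pos _
  have hb : (0 : ℝ) < ((p + j + 1).factorial : ℝ) := by exact_mod_cast Nat.factorial_pos _
  have hc : (0 : ℝ) < (k.factorial : ℝ) := by exact_mod_cast Nat.factorial_pos _
  have hm1 : (0 : ℝ) < ((p : ℝ) + 1 + k - j) * ((p : ℝ) + 1 + k + j + 1) :=
    mul_pos (by linarith) (by linarith)
  have hm2 : (0 : ℝ) < ((p : ℝ) + 1 + k + 1 - j) * ((p : ℝ) + 1 + k + 1 + j + 1) :=
    mul_pos (by linarith) (by linarith)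
  have key : ((k : ℝ) + 1) * (((p : ℝ) + 1 + k + 1 - j) * ((p : ℝ) + 1 + k + 1 + j + 1)) ≤
      ((p : ℝ) + 1 + k + 1 + p + 1) * (((p : ℝ) + 1 + k - j) * ((p : ℝ) + 1 + k + j + 1)) := by
    have s1 : ((p : ℝ) + 1 + k + 1 - j) * ((p : ℝ) + 1 + k + 1 + j + 1) ≤
        ((p : ℝ) + 1 + k + j + 1) * ((p : ℝ) + 1 + k + 1 + p + 1) :=
      mul_le_mul (by linarith) (by linarith) (by linarith) (by linarith)
    have s2 : ((k : ℝ) + 1) * (((p : ℝ) + 1 + k + 1 - j) * ((p : ℝ) + 1 + k + 1 + j + 1)) ≤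
        ((p : ℝ) + 1 + k - j) * (((p : ℝ) + 1 + k + j + 1) * ((p : ℝ) + 1 + k + 1 + p + 1)) :=
      mul_le_mul (by linarith) s1 (mul_nonneg (by linarith) (by linarith)) (by linarith)
    linarith [s2]
  push_cast
  rw [div_le_div_iff₀ (by positivity) (by positivity)]
  calc (2 * (j : ℝ) + 1) * ((p + 1 + k + p + 1).factorial : ℝ) * (((p - j).factorial : ℝ) *
        ((p + j + 1).factorial : ℝ) * (((k : ℝ) + 1) * (k.factorial : ℝ)) *
          (((p : ℝ) + 1 + k + 1 - j) * ((p : ℝ) + 1 + k + 1 + j + 1)))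
      = ((2 * (j : ℝ) + 1) * ((p + 1 + k + p + 1).factorial : ℝ) * ((p - j).factorial : ℝ) *
          ((p + j + 1).factorial : ℝ) * (k.factorial : ℝ)) *
          (((k : ℝ) + 1) * (((p : ℝ) + 1 + k + 1 - j) * ((p : ℝ) + 1 + k + 1 + j + 1))) := by ring
    _ ≤ ((2 * (j : ℝ) + 1) * ((p + 1 + k + p + 1).factorial : ℝ) * ((p - j).factorial : ℝ) *
          ((p + j + 1).factorial : ℝ) * (k.factorial : ℝ)) *
          (((p : ℝ) + 1 + k + 1 + p + 1) * (((p : ℝ) + 1 + k - j) * ((p : ℝ) + 1 + k + j + 1))) :=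
        mul_le_mul_of_nonneg_left key (by positivity)
    _ = (2 * (j : ℝ) + 1) * (((p : ℝ) + 1 + k + 1 + p + 1) *
          ((p + 1 + k + p + 1).factorial : ℝ)) *
          (((p - j).factorial : ℝ) * ((p + j + 1).factorial : ℝ) * (k.factorial : ℝ) *
          (((p : ℝ) + 1 + k - j) * ((p : ℝ) + 1 + k + j + 1))) := by ring

theorem YNF_mono (p j k : ℕ) (h2 : j ≤ p) : AH p (p + 1) j ≤ AH p (p + 1 + k) j := by
  induction k with
  | zero => exact le_refl _
  | succ k ih => exact ih.trans (YNF_step p (p + 1 + k) j h2 (by omega))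

theorem YNF_choose (n k : ℕ) (hk : 2 ≤ k) (hn : k ≤ n / 2) : n.choose 2 ≤ n.choose k := by
  induction k, hk using Nat.le_induction with
  | base => exact le_refl _
  | succ k hk ih =>
    exact (ih (by omega)).trans (Nat.choose_le_succ_of_lt_half_left (by omega))

theorem YNF_val (j s : ℕ) :
    AH (j + s) (j + s + 1) j * (2 * ((j : ℝ) + s) + 3) =
      (2 * j + 1) * (((2 * j + 2 * s + 3).choose (s + 1) : ℕ) : ℝ) := by
  have hc := Nat.choose_mul_factorial_mul_factorial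
    (show s + 1 ≤ 2 * j + 2 * s + 3 by omega)
  rw [show 2 * j + 2 * s + 3 - (s + 1) = (2 * j + s + 1) + 1 by omega,
    show 2 * j + 2 * s + 3 = (2 * j + 2 * s + 2) + 1 by omega,
    Nat.factorial_succ (2 * j + s + 1), Nat.factorial_succ s,
    Nat.factorial_succ (2 * j + 2 * s + 2)] at hc
  unfold AH
  rw [show j + s + 1 + (j + s) + 1 = 2 * j + 2 * s + 2 by omega, show j + s - j = s by omega,
    show j + s + j + 1 = 2 * j + s + 1 by omega, show j + s + 1 - (j + s) - 1 = 0 by omega,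
    Nat.factorial_zero]
  have hc' : (((2 * j + 2 * s + 3).choose (s + 1) : ℕ) : ℝ) *
      (((s : ℝ) + 1) * (s.factorial : ℝ)) *
      ((2 * (j : ℝ) + s + 2) * ((2 * j + s + 1).factorial : ℝ)) =
      (2 * (j : ℝ) + 2 * s + 3) * ((2 * j + 2 * s + 2).factorial : ℝ) := by
    have := congrArg (fun n : ℕ => (n : ℝ)) hc
    push_cast at this
    rw [show 2 * j + 2 * s + 3 = (2 * j + 2 * s + 2) + 1 by omega]
    linear_combination this
  have ha : (0 : ℝ) < (s.factorial : ℝ) := by exact_mod_cast Nat.factorial_pos s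
  have hb : (0 : ℝ) < ((2 * j + s + 1).factorial : ℝ) := by exact_mod_cast Nat.factorial_pos _
  generalize (((2 * j + 2 * s + 3).choose (s + 1) : ℕ) : ℝ) = C at hc'
  generalize ((2 * j + 2 * s + 2).factorial : ℝ) = F at hc'
  generalize (s.factorial : ℝ) = a at hc' ha
  generalize ((2 * j + s + 1).factorial : ℝ) = b at hc' hb
  push_cast
  have hd : ((j : ℝ) + s + 1 - j) * ((j : ℝ) + s + 1 + j + 1) = ((s : ℝ) + 1) * (2 * j + s + 2) := by
    ring
  rw [hd]
  have hne : a * b * 1 * (((s : ℝ) + 1) * (2 * j + s + 2)) ≠ 0 := by positivity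
  rw [div_mul_eq_mul_div, div_eq_iff hne]
  linear_combination (-(2 * (j : ℝ) + 1)) * hc'

theorem YNF : YNF_stmt := by
  intro p m j h1 h2 h3
  obtain ⟨k, rfl⟩ : ∃ k, m = p + 1 + k := ⟨m - p - 1, by omega⟩
  refine le_trans ?_ (YNF_mono p j k h2)
  obtain ⟨s, rfl⟩ : ∃ s, p = j + s := ⟨p - j, by omega⟩
  have hA := YNF_val j s
  have hj' : (1 : ℝ) ≤ (j : ℝ) := by exact_mod_cast h1
  have hs0 : (0 : ℝ) ≤ (s : ℝ) := Nat.cast_nonneg s
  have hpos : (0 : ℝ) < 2 * ((j : ℝ) + s) + 3 := by positivity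
  push_cast
  refine le_of_mul_le_mul_right ?_ hpos
  rw [hA]
  rcases Nat.eq_zero_or_pos s with hs | hs
  · subst hs
    rw [Nat.choose_one_right]
    push_cast
    nlinarith
  · have hs' : (1 : ℝ) ≤ (s : ℝ) := by exact_mod_cast hs
    have h3' := YNF_choose (2 * j + 2 * s + 3) (s + 1) (by omega) (by omega)
    have e2 := Nat.add_one_mul_choose_eq (2 * j + 2 * s + 2) 1
    rw [Nat.choose_one_right] at e2
    have r2 : ((2 * j + 2 * s + 3 : ℕ) : ℝ) * ((2 * j + 2 * s + 2 : ℕ) : ℝ) =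
        (((2 * j + 2 * s + 3).choose 2 : ℕ) : ℝ) * 2 := by exact_mod_cast e2
    have r3 : (((2 * j + 2 * s + 3).choose 2 : ℕ) : ℝ) ≤
        (((2 * j + 2 * s + 3).choose (s + 1) : ℕ) : ℝ) := by exact_mod_cast h3'
    push_cast at r2
    generalize (((2 * j + 2 * s + 3).choose (s + 1) : ℕ) : ℝ) = C at r3
    generalize (((2 * j + 2 * s + 3).choose 2 : ℕ) : ℝ) = B at r2 r3
    have hB : B = (2 * ((j : ℝ) + s) + 3) * ((j : ℝ) + s + 1) := by linarith
    calc (2 * ((j : ℝ) + s + 1 - j) - 1) * (2 * ((j : ℝ) + s) + 3)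
        ≤ ((2 * j + 1) * ((j : ℝ) + s + 1)) * (2 * ((j : ℝ) + s) + 3) := by
          apply mul_le_mul_of_nonneg_right _ hpos.le
          nlinarith
      _ = (2 * j + 1) * B := by rw [hB]; ring
      _ ≤ (2 * j + 1) * C := mul_le_mul_of_nonneg_left r3 (by linarith)

end Pool.Agent.GD
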